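import Pool.Agent.X127.CS.Win

/-!
# The pair correlation asymptotic on average over the distance, with bounded error

Nothing is assumed about the zeros.  Let `X = (T / 2π) log T`, let `F` be the pair correlation
function of the problem, and fix `B > 0`.  For all large `T`:

* (position of the window) for `0 ≤ A ≤ A'`, `0 < β`, `A' + β ≤ B √(log T)`,
  `|∫_A^{A'} (N(T; α, α + β) - X ∫_α^{α+β} F) dα| ≤ C X`;
* (distance) for `0 ≤ b ≤ B √(log T)`, with `P(T, a)` the number of pairs of zeros with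
  normalised distance in `(0, a]` and `D(T)` the number of pairs with equal ordinates,
  `|∫_0^b (P(T, a) - X ∫_0^a F) da + (b / 2) (D(T) - X)| ≤ C X` and
  `∫_0^b (P(T, a) - X ∫_0^a F) da ≤ C X`;
* `∫_0^b ∫_0^a F = b² / 2 - b / 2 + log (1 + b) / (2 π²) + O(1)`, so that the terms of order
  `b²`, `b` and `log b` are all visible above the error.

The constants are uniform in `A`, `A'`, `β`, `b`, which may grow with `T`.

Idea of the proof.  The second moment over `t` of the number of zeros in `(t, t + h]` equals,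
up to boundary terms, `h D + 2 ∫_0^h (number of pairs with distance at most k) dk`.  The
starting library contains the variance of this number with error `O(T)`, unconditionally.
-/

open Filter Topology

namespace Pool.Agent.Results.MP_8958e8_nt.CesaroSecondOrder

/-- the nontrivial zeros of zeta with ordinate in `(0, T]` -/
def zeros (T : ℝ) : Set ℂ :=
  {s : ℂ | riemannZeta s = 0 ∧ 0 < s.re ∧ s.re < 1 ∧ 0 < s.im ∧ s.im ≤ T}

/-- the multiplicity of a zero -/
noncomputable def mult (s : ℂ) : ℕ := analyticOrderNatAt riemannZeta s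

/-- the normalised difference of two ordinates -/
noncomputable def dist (T : ℝ) (s s' : ℂ) : ℝ := (s.im - s'.im) * Real.log T / (2 * Real.pi)

/-- `N(T; α, β)`: the number of ordered pairs of zeros in `zeros T`, counted with multiplicity,
with normalised difference of the ordinates in `[α, β]` -/
noncomputable def N (T α β : ℝ) : ℕ :=
  ∑ᶠ s ∈ zeros T, ∑ᶠ s' ∈ {s' : ℂ | s' ∈ zeros T ∧ (α ≤ dist T s s' ∧ dist T s s' ≤ β)},
    mult s * mult s'

/-- `P(T, a)`: the same for the half-open window `(0, a]` -/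
noncomputable def P (T a : ℝ) : ℕ :=
  ∑ᶠ s ∈ zeros T, ∑ᶠ s' ∈ {s' : ℂ | s' ∈ zeros T ∧ (0 < dist T s s' ∧ dist T s s' ≤ a)},
    mult s * mult s'

/-- `D(T)`: the number of pairs of zeros with equal ordinates, counted with multiplicity (a simple
zero alone at its height contributes `1`) -/
noncomputable def D (T : ℝ) : ℕ :=
  ∑ᶠ s ∈ zeros T, ∑ᶠ s' ∈ {s' : ℂ | s' ∈ zeros T ∧ s.im = s'.im}, mult s * mult s'

/-- the pair correlation function -/
noncomputable def F (u : ℝ) : ℝ := 1 - (Real.sin (Real.pi * u) / (Real.pi * u)) ^ 2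

/-- `(T / 2π) log T` -/
noncomputable def X (T : ℝ) : ℝ := T * Real.log T / (2 * Real.pi)

/-- the sets of zeros that are summed over are finite -/
theorem zeros_finite (T : ℝ) : (zeros T).Finite := Pool.Agent.X127.CS.zr_fin T

/-- the functions that are integrated are integrable -/
theorem integrable {T : ℝ} (hT : 1 < T) (a b : ℝ) :
    IntervalIntegrable (fun a => (P T a : ℝ) - X T * ∫ u in (0:ℝ)..a, F u)
      MeasureTheory.volume a b := by
  classical
  have h := Pool.Agent.X127.CS.dsc_ii hT a b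
  refine h.congr (fun a _ => ?_)
  show Pool.Agent.X127.CS.dsc T a = (P T a : ℝ) - X T * ∫ u in (0:ℝ)..a, F u
  unfold Pool.Agent.X127.CS.dsc
  rw [Pool.Agent.X127.CS.QQ_eq hT, ← Pool.Agent.X127.CS.ps_finsum]
  rfl

/-- **The pair correlation asymptotic on average over the distance, with bounded error.** -/
theorem result (B : ℝ) (hB : 0 < B) : ∃ C T₀ : ℝ, 0 < C ∧ 2 ≤ T₀ ∧
    (∀ T : ℝ, T₀ ≤ T → ∀ A A' β : ℝ, 0 ≤ A → A ≤ A' → 0 < β →
      A' + β ≤ B * Real.sqrt (Real.log T) →
      |∫ α in A..A', ((N T α (α + β) : ℝ) - X T * ∫ u in α..(α + β), F u)| ≤ C * X T) ∧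
    (∀ T : ℝ, T₀ ≤ T → ∀ b : ℝ, 0 ≤ b → b ≤ B * Real.sqrt (Real.log T) →
      |(∫ a in (0:ℝ)..b, ((P T a : ℝ) - X T * ∫ u in (0:ℝ)..a, F u)) +
        b / 2 * ((D T : ℝ) - X T)| ≤ C * X T ∧
      (∫ a in (0:ℝ)..b, ((P T a : ℝ) - X T * ∫ u in (0:ℝ)..a, F u)) ≤ C * X T) ∧
    (∀ b : ℝ, 0 ≤ b → |(∫ a in (0:ℝ)..b, ∫ u in (0:ℝ)..a, F u) -
      (b ^ 2 / 2 - b / 2 + Real.log (1 + b) / (2 * Real.pi ^ 2))| ≤ C) := by
  classical
  obtain ⟨C1, T1, hC1, hT1, h1⟩ := Pool.Agent.X127.CS.win_avg B hB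
  obtain ⟨C2, T2, hC2, hT2, h2⟩ := Pool.Agent.X127.CS.disc_avg B hB
  obtain ⟨C3, T3, hC3, hT3, h3⟩ := Pool.Agent.X127.CS.disc_up B hB
  have hX : ∀ T : ℝ, 100 ≤ T → 0 ≤ X T := fun T hT => by
    unfold X
    have := Real.log_pos (show (1 : ℝ) < T by linarith)
    have := Real.pi_pos
    positivity
  refine ⟨C1 + C2 + C3 + 12, max T1 (max T2 T3), by linarith, by linarith [le_max_left T1 (max T2 T3)],
    ?_, ?_, ?_⟩
  · intro T hT A A' β hA hAA hβ hAB
    have hTT : T1 ≤ T := (le_max_left _ _).trans hT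
    have h := h1 T hTT A A' β hA hAA hβ.le hAB
    have e : ∀ α : ℝ, (N T α (α + β) : ℝ) - X T * ∫ u in α..(α + β), F u =
        (Pool.Agent.X127.CS.ps T (fun s s' => α ≤ (s.im - s'.im) * Real.log T / (2 * Real.pi) ∧
        (s.im - s'.im) * Real.log T / (2 * Real.pi) ≤ α + β) : ℝ) -
        Pool.Agent.X127.CS.XX T * ∫ u in α..(α + β), Pool.Agent.X127.CS.pcF u := by
      intro α
      rw [← Pool.Agent.X127.CS.ps_finsum]
      rfl
    simp_rw [e]
    refine h.trans (mul_le_mul_of_nonneg_right (by linarith) (hX T (by linarith)))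
  · intro T hT b hb hbB
    have hT2' : T2 ≤ T := ((le_max_left _ _).trans (le_max_right _ _)).trans hT
    have hT3' : T3 ≤ T := ((le_max_right _ _).trans (le_max_right _ _)).trans hT
    have hT100 : 100 ≤ T := hT2.trans hT2'
    have g2 := h2 T hT2' b hb hbB
    have g3 := h3 T hT3' b hb hbB
    have e : ∀ a : ℝ, (P T a : ℝ) - X T * ∫ u in (0:ℝ)..a, F u = Pool.Agent.X127.CS.dsc T a := by
      intro a
      unfold Pool.Agent.X127.CS.dsc
      rw [Pool.Agent.X127.CS.QQ_eq (by linarith), ← Pool.Agent.X127.CS.ps_finsum]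
      rfl
    have e2 : (D T : ℝ) = (Pool.Agent.X127.CS.EE 0 T : ℝ) := by
      rw [Pool.Agent.X127.CS.EE_eq, ← Pool.Agent.X127.CS.ps_finsum]
      rfl
    simp_rw [e]
    rw [e2]
    have hX0 := hX T hT100
    refine ⟨g2.trans (mul_le_mul_of_nonneg_right (by linarith) hX0),
      g3.trans (mul_le_mul_of_nonneg_right (by linarith) hX0)⟩
  · intro b hb
    have h := Pool.Agent.X127.CS.gue hb
    change |(∫ a in (0:ℝ)..b, ∫ u in (0:ℝ)..a, Pool.Agent.X127.CS.pcF u) - _| ≤ _
    linarith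

end Pool.Agent.Results.MP_8958e8_nt.CesaroSecondOrder
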