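import Pool.Agent.X83.PC.GlueS

/-!
# One-sided bounds on a sparse set of distances decide the conjecture, without RH

Let `(a_n, b_n)` be disjoint intervals going to infinity with `∑ ((b_n - a_n) / b_n)² = ∞`, for instance
`(2ⁿ, 2ⁿ (1 + n ^ (-1/2)))`, whose union has density zero, and let `s_n = ± 1` be arbitrary signs.  Let
`N(T, x)` be the number of ordered pairs of ordinates in `[0, T]` at a distance at most
`2πx / log T`.  The conjecture predicts `N(T, x) ~ (1 + 2 ∫_0^x F) (T / 2π) log T`.

Nothing is assumed about the zeros.  The conjecture (for all `0 < α < β`) holds if and only if a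
proportion tending to `1` of the zeros lies on the critical line and, for each `n`, one of the two
inequalities of the prediction (the upper bound if `s_n = 1`, the lower bound if `s_n = -1`) holds for
`x` in `(a_n, b_n)`, up to an error `C exp (-c (b_n - a_n)) + o(1)`.

Method: `x` times the difference of the distribution functions of a limit of the pair measures and of
the predicted measure has a spectral gap (Montgomery's theorem in a small band, which holds as soon
as almost all zeros are on the line).  Kernels adapted to the length of the interval turn the one-sided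
bound on `(a_n, b_n)` into an exponentially small mean in the middle of it, and a theorem of Beurling
type (harmonic measure in the half plane) shows that a function with a spectral gap which is that
small on the intervals vanishes.
-/

open Filter Topology

namespace Pool.Agent.Results.MP_8958e8_nt.SparseOneSided

/-- the nontrivial zeros of `ζ` -/
def Zeros : Set ℂ := {s : ℂ | riemannZeta s = 0 ∧ 0 < s.re ∧ s.re < 1}

/-- the multiplicity of `s` as a zero of `ζ` (order of vanishing at `s`) -/
noncomputable def mult (s : ℂ) : ℕ := analyticOrderNatAt riemannZeta s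

/-- `N(T; α, β)` of the problem: the number of ordered pairs of ordinates in `[0, T]`, counted with
multiplicity, with `(γ₁ - γ₂) log T / (2π)` in `[α, β]` -/
noncomputable def N (T α β : ℝ) : ℕ :=
  ∑ᶠ p ∈ {p : ℂ × ℂ | (p.1 ∈ Zeros ∧ 0 ≤ p.1.im ∧ p.1.im ≤ T) ∧
    (p.2 ∈ Zeros ∧ 0 ≤ p.2.im ∧ p.2.im ≤ T) ∧
    (p.1.im - p.2.im) * Real.log T / (2 * Real.pi) ∈ Set.Icc α β}, mult p.1 * mult p.2

/-- `N(T, x)`: the number of ordered pairs of ordinates in `[0, T]`, counted with multiplicity (pairs
of equal ordinates included), with `|γ₁ - γ₂| log T / (2π) ≤ x` -/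
noncomputable def Nsym (T x : ℝ) : ℕ :=
  ∑ᶠ p ∈ {p : ℂ × ℂ | (p.1 ∈ Zeros ∧ 0 ≤ p.1.im ∧ p.1.im ≤ T) ∧
    (p.2 ∈ Zeros ∧ 0 ≤ p.2.im ∧ p.2.im ≤ T) ∧
    |p.1.im - p.2.im| * Real.log T / (2 * Real.pi) ≤ x}, mult p.1 * mult p.2

/-- the pair correlation function -/
noncomputable def F (u : ℝ) : ℝ := 1 - (Real.sin (Real.pi * u) / (Real.pi * u)) ^ 2

/-- the statement Q1 of the problem -/
def Q1 : Prop := ∀ α β : ℝ, 0 < α → α < β →
  Asymptotics.IsEquivalent atTop (fun T : ℝ => (N T α β : ℝ))
    (fun T : ℝ => T * Real.log T / (2 * Real.pi) * ∫ u in α..β, F u)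

/-- the number of nontrivial zeros off the critical line with ordinate in `(0, T]`, counted with
multiplicity -/
noncomputable def Off (T : ℝ) : ℕ :=
  ∑ᶠ s ∈ {s : ℂ | s ∈ Zeros ∧ s.re ≠ 1 / 2 ∧ 0 < s.im ∧ s.im ≤ T}, mult s

/-- almost all zeros are on the critical line -/
def AlmostAllOnLine : Prop := Tendsto (fun T : ℝ => (Off T : ℝ) / (T * Real.log T)) atTop (𝓝 0)

/-- on each interval `(a n, b n)` the inequality of the prediction with the sign `s n` -/
def OneSided (a b s : ℕ → ℝ) : Prop := ∃ C c : ℝ, 0 < c ∧ ∀ n : ℕ, ∀ x ∈ Set.Ioo (a n) (b n),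
  ∀ ε : ℝ, 0 < ε → ∃ T₀ : ℝ, ∀ T : ℝ, T₀ ≤ T →
    s n * ((Nsym T x : ℝ) / (T * Real.log T / (2 * Real.pi)) -
      (1 + 2 * ∫ u in (0 : ℝ)..x, F u)) ≤ C * Real.exp (-(c * (b n - a n))) + ε

/-- **One-sided bounds on a sparse set of distances decide the conjecture.** -/
theorem result (a b s : ℕ → ℝ) (ha : ∀ n, 0 < a n) (hab : ∀ n, a n < b n)
    (hd : ∀ n, b n ≤ a (n + 1)) (hdiv : ¬ Summable fun n => ((b n - a n) / b n) ^ 2)
    (hs : ∀ n, s n = 1 ∨ s n = -1) :
    Q1 ↔ AlmostAllOnLine ∧ OneSided a b s := by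
  have e1 : Q1 ↔ Pool.Agent.X83.PC.MontW := Pool.Agent.X83.PC.q1w_iff
  have e2 : AlmostAllOnLine ↔ Pool.Agent.X83.PC.OnLine := Pool.Agent.X83.PC.online_iff
  have e3 : OneSided a b s ↔ Pool.Agent.X83.PC.SpOne a b s :=
    (Pool.Agent.X83.PC.spOne_iff a b s).symm
  rw [e1, e2, e3]
  exact Pool.Agent.X83.PC.montW_iff_sp ⟨ha, hab, hd, hdiv⟩ hs

end Pool.Agent.Results.MP_8958e8_nt.SparseOneSided
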