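import Pool.Agent.X83.PC.GlueS

/-!
# One-sided bounds for two window lengths at a sparse set of distances decide the conjecture

Nothing is assumed about the zeros.  Let `D(T; α, β) = N(T; α, β) / ((T / 2π) log T) - ∫_α^β F`.
Let `(a_n, b_n)` be disjoint intervals going to infinity with `∑ ((b_n - a_n) / b_n)² = ∞` (their union
may have density zero), and `s_n = ± 1` arbitrary signs.  The one-sided bound of length `l` is:
`s_n D(T; α, α + l) ≤ C exp (-c (b_n - a_n)) + o(1)` for `α` in `(a_n, b_n)` and every `n`.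

For two lengths with an irrational ratio (each with its own intervals and signs): the asymptotic
formula of the problem holds for all `0 < α < β` if and only if a proportion tending to `1` of the
zeros lies on the critical line and both one-sided bounds hold.
-/

open Filter Topology

namespace Pool.Agent.Results.MP_8958e8_nt.TwoLengthsDecide

/-- the nontrivial zeros of `ζ` -/
def Zeros : Set ℂ := {s : ℂ | riemannZeta s = 0 ∧ 0 < s.re ∧ s.re < 1}

/-- the multiplicity of `s` as a zero of `ζ` (order of vanishing at `s`) -/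
noncomputable def mult (s : ℂ) : ℕ := analyticOrderNatAt riemannZeta s

/-- `N(T; α, β)` of the problem: the number of ordered pairs of ordinates in `[0, T]`, counted with
multiplicity, with `(γ₁ - γ₂) log T / (2π)` in `[α, β]` -/
noncomputable def N (T α β : ℝ) : ℕ :=
  ∑ᶠ p ∈ {p : ℂ × ℂ | (p.1 ∈ Zeros ∧ 0 ≤ p.1.im ∧ p.1.im ≤ T) ∧
    (p.2 ∈ Zeros ∧ 0 ≤ p.2.im ∧ p.2.im ≤ T) ∧
    (p.1.im - p.2.im) * Real.log T / (2 * Real.pi) ∈ Set.Icc α β}, mult p.1 * mult p.2

/-- the pair correlation function -/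
noncomputable def F (u : ℝ) : ℝ := 1 - (Real.sin (Real.pi * u) / (Real.pi * u)) ^ 2

/-- the statement Q1 of the problem -/
def Q1 : Prop := ∀ α β : ℝ, 0 < α → α < β →
  Asymptotics.IsEquivalent atTop (fun T : ℝ => (N T α β : ℝ))
    (fun T : ℝ => T * Real.log T / (2 * Real.pi) * ∫ u in α..β, F u)

/-- the number of nontrivial zeros off the critical line with ordinate in `(0, T]`, counted with
multiplicity -/
noncomputable def Off (T : ℝ) : ℕ :=
  ∑ᶠ s ∈ {s : ℂ | s ∈ Zeros ∧ s.re ≠ 1 / 2 ∧ 0 < s.im ∧ s.im ≤ T}, mult s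

/-- almost all zeros are on the critical line -/
def AlmostAllOnLine : Prop := Tendsto (fun T : ℝ => (Off T : ℝ) / (T * Real.log T)) atTop (𝓝 0)

/-- disjoint intervals `(a n, b n)`, in increasing order, which are not too sparse -/
structure NotTooSparse (a b : ℕ → ℝ) : Prop where
  pos : ∀ n, 0 < a n
  lt : ∀ n, a n < b n
  disjoint : ∀ n, b n ≤ a (n + 1)
  diverges : ¬ Summable fun n => ((b n - a n) / b n) ^ 2

/-- the one-sided bound of length `l` at distances in the intervals `(a n, b n)`, with the sign `s n` -/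
def OneSided (a b s : ℕ → ℝ) (l : ℝ) : Prop := ∃ C c : ℝ, 0 < c ∧ ∀ n : ℕ,
  ∀ α ∈ Set.Ioo (a n) (b n), ∀ ε : ℝ, 0 < ε → ∃ T₀ : ℝ, ∀ T : ℝ, T₀ ≤ T →
    s n * ((N T α (α + l) : ℝ) / (T * Real.log T / (2 * Real.pi)) - ∫ u in α..(α + l), F u) ≤
      C * Real.exp (-(c * (b n - a n))) + ε

/-- **One-sided bounds for two lengths at a sparse set of distances decide the conjecture.** -/
theorem result (l₁ l₂ : ℝ) (hl₁ : 0 < l₁) (hl₂ : 0 < l₂) (hir : Irrational (l₁ / l₂))
    (a₁ b₁ s₁ a₂ b₂ s₂ : ℕ → ℝ) (hab₁ : NotTooSparse a₁ b₁) (hab₂ : NotTooSparse a₂ b₂)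
    (hs₁ : ∀ n, s₁ n = 1 ∨ s₁ n = -1) (hs₂ : ∀ n, s₂ n = 1 ∨ s₂ n = -1) :
    Q1 ↔ AlmostAllOnLine ∧ OneSided a₁ b₁ s₁ l₁ ∧ OneSided a₂ b₂ s₂ l₂ := by
  have e1 : Q1 ↔ Pool.Agent.X83.PC.MontW := Pool.Agent.X83.PC.q1w_iff
  have e2 : AlmostAllOnLine ↔ Pool.Agent.X83.PC.OnLine := Pool.Agent.X83.PC.online_iff
  have e3 : ∀ (a b s : ℕ → ℝ) (l : ℝ), OneSided a b s l ↔ Pool.Agent.X83.PC.OneWS a b s l :=
    fun a b s l => (Pool.Agent.X83.PC.oneWS_iff a b s l).symm
  rw [e1, e2, e3, e3]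
  exact Pool.Agent.X83.PC.montWS_iff hl₁ hl₂ hir
    ⟨hab₁.pos, hab₁.lt, hab₁.disjoint, hab₁.diverges⟩
    ⟨hab₂.pos, hab₂.lt, hab₂.disjoint, hab₂.diverges⟩ hs₁ hs₂

end Pool.Agent.Results.MP_8958e8_nt.TwoLengthsDecide
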