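import Pool.Agent.X113.UF4

/-!
# Upper bounds for the means of the form factor decide the pair correlation, unconditionally

No hypothesis is assumed.  Let `F(α, T)` be Montgomery's function for the ordinates of all the
nontrivial zeros (on or off the critical line).  Then the pair correlation conjecture for all
`α < β` (for `α ≤ 0 ≤ β` the diagonal contributes `1`) holds if and only if for all `0 < a < b`
the upper bound `∫_a^b F(α, T) dα ≤ ∫_a^b min(α, 1) dα + o(1)` holds.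

If the upper bound is known for all `0 < a < b ≤ R` only, with some `R ≥ 1`, then

* the lower bound `∫_a^b F(α, T) dα ≥ ∫_a^b min(α, 1) dα - 1 / (6 (R - b)) - o(1)` holds for all
  `0 < a < b < R`;
* at least the proportion `1 - 1 / (3 R²) - o(1)` of the nontrivial zeros, counted with
  multiplicity, are simple and on the critical line.

All this also holds along any sequence of values of `T`.
-/

open MeasureTheory Filter
open Complex (I)

namespace Pool.Agent.Results.MP_8958e8_nt.UpperFormFactor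

/-- the nontrivial zeros of `ζ` with ordinate in `(0, T]` -/
def zeros (T : ℝ) : Set ℂ :=
  {s : ℂ | 0 < s.re ∧ s.re < 1 ∧ 0 < s.im ∧ s.im ≤ T ∧ riemannZeta s = 0}

/-- the multiplicity of `s` as a zero of `ζ` -/
noncomputable def mult (s : ℂ) : ℕ := analyticOrderNatAt riemannZeta s

/-- `N(T; α, β)`: the number of ordered pairs of zeros with ordinates in `(0, T]`, counted with
multiplicity, with `2πα / log T ≤ γ - γ' ≤ 2πβ / log T` -/
noncomputable def N (T α β : ℝ) : ℕ :=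
  ∑ᶠ s ∈ zeros T, ∑ᶠ s' ∈ {s' : ℂ | s' ∈ zeros T ∧
    2 * Real.pi * α / Real.log T ≤ s.im - s'.im ∧ s.im - s'.im ≤ 2 * Real.pi * β / Real.log T},
      mult s * mult s'

/-- the constant of the conjecture, `∫_α^β (1 - (sin πu / πu)²) du`, and `1` more if
`α ≤ 0 ≤ β` -/
noncomputable def P (α β : ℝ) : ℝ :=
  (∫ u in α..β, (1 - (Real.sin (Real.pi * u) / (Real.pi * u)) ^ 2)) +
    if α ≤ 0 ∧ 0 ≤ β then 1 else 0

/-- `(T / 2π) log T` -/
noncomputable def X (T : ℝ) : ℝ := T / (2 * Real.pi) * Real.log T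

/-- the pair correlation conjecture for all `α < β`, along the filter `l` of values of `T` -/
def PairCorrelation (l : Filter ℝ) : Prop := ∀ α β : ℝ, α < β →
  Asymptotics.IsEquivalent l (fun T => (N T α β : ℝ)) (fun T => P α β * X T)

/-- Montgomery's form factor `F(α, T)` of the ordinates of all the zeros -/
noncomputable def F (T α : ℝ) : ℂ :=
  (X T : ℂ)⁻¹ * ∑ᶠ s ∈ zeros T, ∑ᶠ s' ∈ zeros T, (mult s : ℂ) * (mult s' : ℂ) *
    ((T : ℂ) ^ (I * α * (s.im - s'.im)) * (4 / (4 + (s.im - s'.im) ^ 2)))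

/-- the upper bound for the means of the form factor in `(0, R]` -/
def MeanUpper (l : Filter ℝ) (R : ℝ) : Prop := ∀ a b : ℝ, 0 < a → a < b → b ≤ R →
  ∀ ε : ℝ, 0 < ε → ∀ᶠ T in l, ∫ α in a..b, (F T α).re ≤ (∫ α in a..b, min α 1) + ε

/-- the number of nontrivial zeros with ordinate in `(0, T]`, counted with multiplicity -/
noncomputable def Nall (T : ℝ) : ℕ := ∑ᶠ s ∈ zeros T, mult s

/-- the number of simple zeros on the critical line with ordinate in `(0, T]` -/
noncomputable def Nsimple (T : ℝ) : ℕ := {s : ℂ | s ∈ zeros T ∧ s.re = 1 / 2 ∧ mult s = 1}.ncard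

lemma Nall_eq (T : ℝ) : (Nall T : ℝ) = Pool.Agent.X113.UF.NA T := by
  unfold Nall Pool.Agent.X113.UF.NA
  have h : zeros T = ((Pool.Agent.Y749.Rig.ZZ T : Finset ℂ) : Set ℂ) :=
    Pool.Agent.Y749.Rig.P.zeros_ZZ T
  rw [h, finsum_mem_coe_finset]
  push_cast
  rfl

lemma Nsimple_eq (T : ℝ) : Nsimple T = (Pool.Agent.X113.UF.SC T).ncard := by
  unfold Nsimple Pool.Agent.X113.UF.SC
  congr 1
  ext s
  have h : s ∈ zeros T ↔ s ∈ Pool.Agent.Y749.Rig.zs T := by
    rw [← Pool.Agent.Y749.Rig.mem_ZZ, ← Finset.mem_coe, ← Pool.Agent.Y749.Rig.P.zeros_ZZ T]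
    rfl
  constructor
  · rintro ⟨h1, h2, h3⟩
    exact ⟨h.1 h1, h2, h3⟩
  · rintro ⟨h1, h2, h3⟩
    exact ⟨h.2 h1, h2, h3⟩

/-- **Upper bounds for the means of the form factor decide the pair correlation, without RH.** -/
theorem result (l : Filter ℝ) (hl : l ≤ atTop) :
    (PairCorrelation l ↔ ∀ R : ℝ, MeanUpper l R) ∧
    (∀ R : ℝ, 1 ≤ R → MeanUpper l R →
      (∀ a b : ℝ, 0 < a → a < b → b < R → ∀ ε : ℝ, 0 < ε → ∀ᶠ T in l,
        (∫ α in a..b, min α 1) - 1 / (6 * (R - b)) - ε ≤ ∫ α in a..b, (F T α).re) ∧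
      ∀ ε : ℝ, 0 < ε → ∀ᶠ T in l, (1 - 1 / (3 * R ^ 2) - ε) * Nall T ≤ Nsimple T) := by
  obtain ⟨h1, h2⟩ := Pool.Agent.X113.UF.main l hl
  refine ⟨h1, fun R hR h => ?_⟩
  obtain ⟨h3, h4⟩ := h2 R hR h
  refine ⟨h3, fun ε hε => ?_⟩
  filter_upwards [h4 ε hε] with T h5
  rw [Nall_eq, Nsimple_eq]
  exact h5

end Pool.Agent.Results.MP_8958e8_nt.UpperFormFactor
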